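import Pool.Agent.TSE.All

set_option autoImplicit false

/-!
# Trees whose vertices of even degree see vertices of even degree in at most two branches
(MP_d27362_co)

Let `T` be a finite tree in which every vertex `v` of even degree, except at most one arbitrary
vertex, has at most two neighbours `w` such that some vertex `u ≠ w` of even degree is closer to `w`
than to `v` (the vertices of even degree at distance at least two from `v` lie in at most two
components of `T - v`). Then `T` has an orientation with at most `2 ^ (-e(T)) * m ^ n`
homomorphisms to every tournament on `m` vertices.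
-/

namespace Pool.Agent.Results.MP_d27362_co.AllButOne

open Pool.Agent

/-- **Every finite tree in which all vertices `v` of even degree, except at most one, have at most
two neighbours `w` such that a vertex `u ≠ w` of even degree is closer to `w` than to `v`**, has an
orientation such that, in every finite tournament on `m` vertices, the number of homomorphisms of
the oriented tree divided by `m ^ n` is at most `2 ^ (- number of edges)`. -/
theorem result :
    ∀ n : ℕ, ∀ T : SimpleGraph (Fin n), T.IsTree →
      (∃ r : Fin n, ∀ v, v ≠ r → Even (T.neighborSet v).ncard →
        {w ∈ T.neighborSet v | ∃ u, u ≠ w ∧ Even (T.neighborSet u).ncard ∧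
          T.dist w u < T.dist v u}.ncard ≤ 2) →
      ∃ D : Fin n → Fin n → Prop,
        (∀ u v, T.Adj u v → (D u v ∨ D v u)) ∧
        (∀ u v, D u v → (T.Adj u v ∧ ¬ D v u)) ∧
        ∀ m : ℕ, ∀ G : Fin m → Fin m → Prop,
          (∀ a, ¬ G a a) →
          (∀ a b, a ≠ b → (G a b ↔ ¬ G b a)) →
          (({f : Fin n → Fin m | ∀ u v, D u v → G (f u) (f v)}.ncard : ℝ) / (m : ℝ) ^ n
            ≤ ((1 : ℝ) / 2) ^ (T.edgeSet.ncard)) :=
  TSE.all_but_one

end Pool.Agent.Results.MP_d27362_co.AllButOne
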