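import Pool.Agent.TFin.Final
import Pool.Agent.TFin.LAB

set_option autoImplicit false

namespace Pool.Agent.Results.MP_d27362_co.AlmostAll

open Finset Filter Topology

/-- The graph `T` has an orientation whose homomorphism density in every finite tournament is at
most `2 ^ (-e(T))`. -/
def Good {n : ℕ} (T : SimpleGraph (Fin n)) : Prop :=
  ∃ D : Fin n → Fin n → Prop,
    (∀ u v, T.Adj u v → (D u v ∨ D v u)) ∧
    (∀ u v, D u v → (T.Adj u v ∧ ¬ D v u)) ∧
    ∀ m : ℕ, ∀ G : Fin m → Fin m → Prop,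
      (∀ a, ¬ G a a) →
      (∀ a b, a ≠ b → (G a b ↔ ¬ G b a)) →
      (({f : Fin n → Fin m | ∀ u v, D u v → G (f u) (f v)}.ncard : ℝ) / (m : ℝ) ^ n
        ≤ ((1 : ℝ) / 2) ^ (T.edgeSet.ncard))

lemma good_iff {n : ℕ} (T : SimpleGraph (Fin n)) :
    Good T ↔ Pool.Agent.TFin.Twin.AntiSidorenko T := by
  unfold Good Pool.Agent.TFin.Twin.AntiSidorenko Pool.Agent.TFin.Twin.IsOrientation
    Pool.Agent.TFin.Twin.IsTournament Pool.Agent.TFin.Twin.homCount
  constructor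
  · rintro ⟨D, h1, h2, h3⟩
    refine ⟨D, ⟨h1, h2⟩, fun m G hG => ?_⟩
    rw [Fintype.card_fin]
    exact h3 m G hG.1 hG.2
  · rintro ⟨D, ⟨h1, h2⟩, h3⟩
    refine ⟨D, h1, h2, fun m G hG1 hG2 => ?_⟩
    have := h3 m G ⟨hG1, hG2⟩
    rwa [Fintype.card_fin] at this

/-- Almost all labelled trees have an anti-Sidorenko orientation: the proportion of the trees on
the vertex set `Fin n` that are not good tends to zero. -/
theorem result :
    Tendsto (fun n : ℕ => ({T : SimpleGraph (Fin n) | T.IsTree ∧ ¬ Good T}.ncard : ℝ) /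
      ({T : SimpleGraph (Fin n) | T.IsTree}.ncard : ℝ)) atTop (𝓝 0) := by
  rw [Metric.tendsto_atTop]
  intro ε hε
  obtain ⟨N, hN⟩ := Pool.Agent.TFin.p_LAB Pool.Agent.TFin.final_fin (ε / 2) (by positivity)
  refine ⟨max N 1, fun n hn => ?_⟩
  have hn1 : 1 ≤ n := (le_max_right _ _).trans hn
  haveI : Nonempty (Fin n) := ⟨⟨0, hn1⟩⟩
  have h1 := hN (Fin n) (by rw [Fintype.card_fin]; exact (le_max_left _ _).trans hn)
  have h2 : ({T : SimpleGraph (Fin n) | T.IsTree ∧ ¬ Good T}.ncard : ℝ) ≤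
      ({T : SimpleGraph (Fin n) | T.IsTree ∧ ¬ Pool.Agent.TFin.GoodTree T}.ncard : ℝ) := by
    have : {T : SimpleGraph (Fin n) | T.IsTree ∧ ¬ Good T}.ncard ≤
        {T : SimpleGraph (Fin n) | T.IsTree ∧ ¬ Pool.Agent.TFin.GoodTree T}.ncard := by
      refine Set.ncard_le_ncard ?_ (Set.toFinite _)
      rintro T ⟨hT, hG⟩
      refine ⟨hT, fun hg => hG ?_⟩
      rw [good_iff]
      exact Pool.Agent.TFin.p_INV.2 (Fin n) T hg
    exact_mod_cast this
  rw [Real.dist_eq, sub_zero, abs_of_nonneg (by positivity)]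
  rcases (Nat.cast_nonneg (α := ℝ) {T : SimpleGraph (Fin n) | T.IsTree}.ncard).eq_or_lt with h0 | h0
  · rw [← h0, div_zero]
    exact hε
  · rw [div_lt_iff₀ h0]
    nlinarith

end Pool.Agent.Results.MP_d27362_co.AlmostAll
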