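import Pool.Agent.TSE.MinC

set_option autoImplicit false

namespace Pool.Agent.Results.MP_d27362_co.LargeTrees

open Finset

/-- The graph `T` has an orientation whose homomorphism density in every finite tournament is at
most `2 ^ (-e(T))`. -/
def Good {n : ℕ} (T : SimpleGraph (Fin n)) : Prop :=
  ∃ D : Fin n → Fin n → Prop,
    (∀ u v, T.Adj u v → (D u v ∨ D v u)) ∧
    (∀ u v, D u v → (T.Adj u v ∧ ¬ D v u)) ∧
    ∀ m : ℕ, ∀ G : Fin m → Fin m → Prop,
      (∀ a, ¬ G a a) →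
      (∀ a b, a ≠ b → (G a b ↔ ¬ G b a)) →
      (({f : Fin n → Fin m | ∀ u v, D u v → G (f u) (f v)}.ncard : ℝ) / (m : ℝ) ^ n
        ≤ ((1 : ℝ) / 2) ^ (T.edgeSet.ncard))

lemma good_iff {n : ℕ} (T : SimpleGraph (Fin n)) :
    Good T ↔ Pool.Agent.TFin.Twin.AntiSidorenko T := by
  unfold Good Pool.Agent.TFin.Twin.AntiSidorenko Pool.Agent.TFin.Twin.IsOrientation
    Pool.Agent.TFin.Twin.IsTournament Pool.Agent.TFin.Twin.homCount
  constructor
  · rintro ⟨D, h1, h2, h3⟩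
    refine ⟨D, ⟨h1, h2⟩, fun m G hG => ?_⟩
    rw [Fintype.card_fin]
    exact h3 m G hG.1 hG.2
  · rintro ⟨D, ⟨h1, h2⟩, h3⟩
    refine ⟨D, h1, h2, fun m G hG1 hG2 => ?_⟩
    have := h3 m G ⟨hG1, hG2⟩
    rwa [Fintype.card_fin] at this

/-- For every `κ` there is `N` such that every tree without an anti-Sidorenko orientation contains
such a tree with fewer than `N` vertices in which every automorphism that fixes a vertex is the
identity and, if it has at least `N` vertices itself, has a nontrivial automorphism fixing a vertex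
and, for some `m`, vertices of degree at least `κ m` whose degrees add up to more than `n / m`. -/
theorem result : ∀ κ : ℕ → ℕ, ∃ N : ℕ, ∀ (n : ℕ) (T : SimpleGraph (Fin n)), T.IsTree → ¬ Good T →
    (∃ k < N, ∃ T₀ : SimpleGraph (Fin k), T₀.IsTree ∧ ¬ Good T₀ ∧ Nonempty (T₀ ↪g T) ∧
      ∀ φ : T₀ ≃g T₀, (∃ v, φ v = v) → ∀ v, φ v = v) ∧
    (N ≤ n →
      (∃ φ : T ≃g T, (∃ v, φ v = v) ∧ ∃ v, φ v ≠ v) ∧
      ∃ m : ℕ, n < m * ∑ v ∈ univ.filter (fun v => κ m ≤ (T.neighborSet v).ncard),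
        (T.neighborSet v).ncard) := by
  intro κ
  obtain ⟨h1, -, N, h3, -⟩ := Pool.Agent.TFin.final
  obtain ⟨M, hM⟩ := h1 κ
  obtain ⟨K, hK⟩ := Pool.Agent.TSE.MinC.minimal
  refine ⟨max (max M N) K, fun n T hT hbad => ?_⟩
  rw [good_iff] at hbad
  refine ⟨?_, fun hn => ⟨?_, ?_⟩⟩
  · obtain ⟨k, hk, T₀, hT₀, hb, he, hr⟩ := hK n T hT hbad
    refine ⟨k, lt_of_lt_of_le hk (le_max_right _ _), T₀, hT₀, ?_, he, hr⟩
    rwa [good_iff]
  · by_contra hcon
    push Not at hcon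
    refine hbad (h3 n T hT (((le_max_right _ _).trans (le_max_left _ _)).trans hn)
      fun φ hφ v => ?_)
    exact hcon φ hφ v
  · by_contra hcon
    push Not at hcon
    exact hbad (hM n T hT (((le_max_left _ _).trans (le_max_left _ _)).trans hn) hcon)

end Pool.Agent.Results.MP_d27362_co.LargeTrees
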