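import Pool.Agent.TLT.All

set_option autoImplicit false

namespace Pool.Agent.Results.MP_d27362_co.LongThreads

/-- Let `T` be a finite tree and `C` a set of vertices inducing a connected subgraph such that
every vertex outside `C` has odd degree, every vertex of `C` has an even number of neighbours
outside `C`, and any two different vertices of `C` whose degree inside `C` is not two are at
distance at least one million. Then `T` has an orientation which is anti-Sidorenko in
tournaments. -/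
theorem result (n : ℕ) (T : SimpleGraph (Fin n)) (hT : T.IsTree)
    (C : Set (Fin n)) (hC : (T.induce C).Connected)
    (hodd : ∀ v, v ∉ C → Odd (T.neighborSet v).ncard)
    (heven : ∀ v ∈ C, Even {u | T.Adj v u ∧ u ∉ C}.ncard)
    (hfar : ∀ u ∈ C, ∀ v ∈ C, u ≠ v → {w | T.Adj u w ∧ w ∈ C}.ncard ≠ 2 →
      {w | T.Adj v w ∧ w ∈ C}.ncard ≠ 2 → 1000000 ≤ T.dist u v) :
    ∃ D : Fin n → Fin n → Prop,
      (∀ u v, T.Adj u v → (D u v ∨ D v u)) ∧
      (∀ u v, D u v → (T.Adj u v ∧ ¬ D v u)) ∧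
      ∀ m : ℕ, ∀ G : Fin m → Fin m → Prop,
        (∀ a, ¬ G a a) →
        (∀ a b, a ≠ b → (G a b ↔ ¬ G b a)) →
        (({f : Fin n → Fin m | ∀ u v, D u v → G (f u) (f v)}.ncard : ℝ) / (m : ℝ) ^ n
          ≤ ((1 : ℝ) / 2) ^ (T.edgeSet.ncard)) := by
  obtain ⟨D, h1, h2, h3⟩ := Pool.Agent.TLT.final (Fin n) T hT C hC hodd heven hfar
  refine ⟨D, h1, h2, ?_⟩
  intro m G hG1 hG2
  rcases Nat.eq_zero_or_pos m with hm | hm
  · subst hm
    have hn : n ≠ 0 := by
      rintro rfl
      obtain ⟨v⟩ := hT.1.nonempty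
      exact v.elim0
    simp [hn]
  · have h4 := h3 (Fin m) G ⟨⟨0, hm⟩⟩ ⟨hG1, hG2⟩
    simp only [Fintype.card_fin] at h4
    have hpos : (0 : ℝ) < (m : ℝ) ^ n := by positivity
    rw [div_le_iff₀ hpos]
    calc _ ≤ _ := h4
      _ = _ := by ring

end Pool.Agent.Results.MP_d27362_co.LongThreads
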